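import Pool.Agent.H.MP_48a29b_ag.Defs
import Pool.Agent.H.MP_d4b31a_ag.Dim

set_option autoImplicit false
open MvPolynomial Pool.Agent.H.MP_48a29b_ag

namespace Pool.Agent.Results.MP_48a29b_ag.CharTwo

theorem result : ∃ (R : Type) (_ : CommRing R) (_ : IsRegularLocalRing R) (n : ℕ) (I : Ideal R) (r m : ℕ),
    ringKrullDim R = n ∧ I.IsRadical ∧ I ≠ ⊤ ∧ 1 ≤ r ∧ r * n ≤ m ∧
      ¬ symb I m ≤ IsLocalRing.maximalIdeal R ^ (r * n - r) * I ^ r := by
  let S := MvPolynomial (Fin 4) (ZMod 2)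
  let M : Ideal S := RingHom.ker constantCoeff
  haveI : M.IsMaximal := RingHom.ker_isMaximal_of_surjective _ fun a => ⟨C a, constantCoeff_C _ _⟩
  let R := Localization.AtPrime M
  have h1 : ∀ v : Fin 4 → PowerSeries (ZMod 2), (∀ i, PowerSeries.constantCoeff (v i) = 0) → ∀ g : S,
      PowerSeries.constantCoeff (aeval v g) = constantCoeff g := fun v hv g => by
    induction g using MvPolynomial.induction_on <;> simp [*]
  have h2 : ∀ v : Fin 4 → PowerSeries (ZMod 2), (∀ i, PowerSeries.constantCoeff (v i) = 0) → ∀ g : M.primeCompl,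
      IsUnit ((aeval v).toRingHom g.1) := fun v hv g =>
    PowerSeries.isUnit_iff_constantCoeff.mpr (Ne.isUnit ((h1 v hv g).trans_ne g.2))
  let a : Fin 4 → PowerSeries (ZMod 2) := fun i => .X ^ ![4, 6, 7, 9] i
  let b : Fin 4 → PowerSeries (ZMod 2) := ![0, 0, 0, .X]
  have ha : ∀ i, PowerSeries.constantCoeff (a i) = 0 := by simp [a, Fin.forall_fin_succ]
  have hb : ∀ i, PowerSeries.constantCoeff (b i) = 0 := by simp [b, Fin.forall_fin_succ]
  let ψ : R →+* _ := IsLocalization.lift (h2 a ha)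
  let θ : R →+* _ := IsLocalization.lift (h2 b hb)
  have hψ : ∀ g : S, ψ (algebraMap S R g) = aeval a g := IsLocalization.lift_eq _
  have hθ : ∀ g : S, θ (algebraMap S R g) = aeval b g := IsLocalization.lift_eq _
  haveI := RingHom.ker_isPrime ψ
  have h3 : ∀ g : S, PowerSeries.coeff 1 (aeval b g) = PowerSeries.coeff 9 (aeval a g) := fun g => by
    induction g using MvPolynomial.induction_on' with
    | add p q hp hq => simp only [map_add, hp, hq]
    | monomial d c =>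
      simp only [aeval_monomial, Finsupp.prod_fintype _ _ fun _ => pow_zero _]
      simp only [Fin.prod_univ_four, a, b, ← pow_mul,
        ← pow_add, PowerSeries.algebraMap_apply, PowerSeries.coeff_C_mul, Matrix.cons_val]
      rw [PowerSeries.coeff_X_pow 9]
      by_cases e : d 0 + d 1 + d 2 = 0
      · rw [e, pow_zero, one_mul, PowerSeries.coeff_X_pow]
        exact congrArg _ (if_congr (by omega) rfl rfl)
      · rw [zero_pow e, zero_mul, map_zero, if_neg fun h => by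
          rcases (by omega : d 3 = 0 ∨ d 3 = 1) with q | q <;> rcases (by omega : d 2 = 0 ∨ d 2 = 1) with q' | q' <;> omega]
  have h4 : ∀ (J : Ideal R) (k : ℕ), (∀ g : S, algebraMap S R g ∈ J → .X ^ k ∣ aeval b g) →
      J.map θ ≤ Ideal.span {.X ^ k} := fun J k h => Ideal.map_le_iff_le_comap.mpr fun y hy => by
    obtain ⟨⟨g, s⟩, e⟩ := IsLocalization.surj M.primeCompl y
    have := h g (e ▸ J.mul_mem_right _ hy)
    rw [← hθ, ← e, map_mul, hθ] at this
    exact Ideal.mem_span_singleton.mpr ((h2 b hb s).dvd_mul_right.mp this)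
  refine ⟨R, inferInstance, inferInstance, 4, RingHom.ker ψ, 1, 4, ?_, Ideal.IsPrime.isRadical inferInstance,
    RingHom.ker_ne_top _, le_rfl, le_rfl, fun h => ?_⟩
  · rw [IsLocalization.AtPrime.ringKrullDim_eq_height M R]
    refine le_antisymm (Ideal.height_le_ringKrullDim_of_isPrime.trans_eq ?_)
      (WithBot.coe_le_coe.mpr (H.MP_d4b31a_ag.ht_mv 4 M))
    simp [S, MvPolynomial.ringKrullDim_of_isNoetherianRing, ringKrullDim_eq_zero_of_field]
  have h5 : algebraMap S R ((X 3 ^ 2 + X 0 * X 2 ^ 2 + X 1 ^ 3 + X 0 ^ 3 * X 1) ^ 2) ∈ symb (RingHom.ker ψ) 4 := by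
    simp only [symb, Ideal.mem_iInf, Ideal.minimalPrimes_eq_subsingleton_self, Set.mem_singleton_iff]
    intro P hP
    refine (IsLocalization.algebraMap_mem_map_algebraMap_iff P.asIdeal.primeCompl _ _ _).mpr
      ⟨algebraMap S R (X 0 ^ 4), fun e => ?_, ?_⟩
    · rw [SetLike.mem_coe, hP, RingHom.mem_ker, hψ] at e
      simp [a] at e
    have h6 : ∀ g : S, aeval a g = 0 → algebraMap S R g ∈ RingHom.ker ψ := fun g e => (hψ g).trans e
    have h7 : algebraMap S R ((X 0 * X 3 - X 1 * X 2) * (X 0 * X 3 - X 1 * X 2) + (X 0 ^ 3 - X 1 ^ 2) *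
        (X 0 ^ 2 * X 1 - X 2 ^ 2)) ∈ RingHom.ker ψ ^ 2 := by
      rw [map_add, map_mul, map_mul, pow_two (RingHom.ker ψ)]
      refine add_mem (Ideal.mul_mem_mul (h6 _ ?_) (h6 _ ?_)) (Ideal.mul_mem_mul (h6 _ ?_) (h6 _ ?_)) <;>
        simp [a] <;> ring
    convert (show _ ∈ RingHom.ker ψ ^ (2 * 2) from pow_mul (RingHom.ker ψ) 2 2 ▸ Ideal.pow_mem_pow h7 2) using 1
    rw [← map_mul, ← map_pow]
    congr 1
    have : (2 : S) = 0 := CharTwo.two_eq_zero
    linear_combination (X 0 ^ 3 * X 2 ^ 2 + X 0 ^ 2 * X 1 ^ 3 + X 0 * X 1 * X 2 * X 3 - X 1 ^ 2 * X 2 ^ 2) *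
      (X 0 ^ 2 * (X 3 ^ 2 + X 0 * X 2 ^ 2 + X 1 ^ 3 + X 0 ^ 3 * X 1) + ((X 0 * X 3 - X 1 * X 2) *
        (X 0 * X 3 - X 1 * X 2) + (X 0 ^ 3 - X 1 ^ 2) * (X 0 ^ 2 * X 1 - X 2 ^ 2))) * this
  have h6 := Ideal.mem_map_of_mem θ (h h5)
  rw [Ideal.map_mul, Ideal.map_pow, pow_one, hθ] at h6
  have h7 := Ideal.mul_mono (Ideal.pow_right_mono (h4 (IsLocalRing.maximalIdeal R) 1 fun g e => by
    rw [pow_one, PowerSeries.X_dvd_iff, h1 b hb]
    exact (IsLocalization.AtPrime.to_map_mem_maximal_iff R M g).mp e) _) (h4 _ 2 fun g e => by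
      rw [RingHom.mem_ker, hψ] at e
      refine PowerSeries.X_pow_dvd_iff.mpr fun k hk => ?_
      interval_cases k
      · rw [PowerSeries.coeff_zero_eq_constantCoeff_apply, h1 b hb, ← h1 a ha, e, map_zero]
      · rw [h3, e, map_zero]) h6
  rw [Ideal.span_singleton_pow, Ideal.span_singleton_mul_span_singleton, Ideal.mem_span_singleton, ← pow_mul,
    ← pow_add] at h7
  simpa [b, ← pow_mul, PowerSeries.coeff_X_pow] using PowerSeries.X_pow_dvd_iff.mp h7 4 (by norm_num)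

end Pool.Agent.Results.MP_48a29b_ag.CharTwo
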